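import Mathlib
import Pool.Agent.H69R3.Defs
import Pool.Agent.H69R3.Extendial

set_option autoImplicit false

universe u

namespace Pool.Agent.Results.MP_9c9ca5_gt.TExtralTight

open Pool.Agent.H69R3

/-- Every t-extral (Tychonoff) space of countable tightness is metrizable (in ZFC). -/
theorem result (X : Type u) [TopologicalSpace X] [T35Space X] (hX : TExtral X)
    (ht : CountablyTight X) : TopologicalSpace.MetrizableSpace X :=
  metrizable_of_extral hX fun _ _ hB _ => OT_closed (OT_of_tight ht) hB

end Pool.Agent.Results.MP_9c9ca5_gt.TExtralTight
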